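import Mathlib
set_option autoImplicit false

/-!
# Motivic cohomology of fields: definitions

Cohomology groups `H^i(F, n)` of fields, functorial, with residues on the rational function field.
-/

namespace Pool.Agent.R388.BS

open Polynomial

/-- Abelian groups `H F i n = H^i(F, n)` for all fields `F`, functorial in `F`, with residues
`H^i(F(t), n) → H^(i-1)(F[X]/(π), n-1)` for all irreducible polynomials `π`. -/
structure FieldCohomology where
  H : (F : Type) → [Field F] → ℤ → ℤ → Type
  [group : ∀ (F : Type) [Field F] (i n : ℤ), AddCommGroup (H F i n)]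
  map : ∀ {F E : Type} [Field F] [Field E], (F →+* E) → ∀ i n : ℤ, H F i n →+ H E i n
  map_id : ∀ {F : Type} [Field F] (i n : ℤ) (x : H F i n), map (RingHom.id F) i n x = x
  map_comp : ∀ {F E L : Type} [Field F] [Field E] [Field L] (g : E →+* L) (f : F →+* E)
    (i n : ℤ) (x : H F i n), map (g.comp f) i n x = map g i n (map f i n x)
  res : ∀ {F : Type} [Field F] (π : F[X]) [Fact (Irreducible π)] (i n : ℤ),
    H (RatFunc F) i n →+ H (AdjoinRoot π) (i - 1) (n - 1)

attribute [instance] FieldCohomology.group

variable (T : FieldCohomology)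

/-- Each class is defined over a finitely generated subextension. -/
def Defined : Prop :=
  ∀ {F E : Type} [Field F] [Field E] [Algebra F E] (i n : ℤ) (x : T.H E i n),
    ∃ (S : Finset E) (y : T.H (IntermediateField.adjoin F (S : Set E)) i n),
      T.map (algebraMap (IntermediateField.adjoin F (S : Set E)) E) i n y = x

/-- Each class of `F` that is zero over `E` is zero over a finitely generated subextension. -/
def Dies : Prop :=
  ∀ {F E : Type} [Field F] [Field E] [Algebra F E] (i n : ℤ) (x : T.H F i n),
    T.map (algebraMap F E) i n x = 0 →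
      ∃ S : Finset E, T.map (algebraMap F (IntermediateField.adjoin F (S : Set E))) i n x = 0

/-- `H^i(F, n) → H^i(F(t), n)` is injective. -/
def RatInjective : Prop :=
  ∀ {F : Type} [Field F] (i n : ℤ), Function.Injective (T.map (algebraMap F (RatFunc F)) i n)

/-- A class in `H^i(F(t), n)` comes from `H^i(F, n)` if and only if all its residues vanish. -/
def RatExact : Prop :=
  ∀ {F : Type} [Field F] (i n : ℤ) (x : T.H (RatFunc F) i n),
    (∀ (π : F[X]) [Fact (Irreducible π)], T.res π i n x = 0) ↔
      x ∈ Set.range (T.map (algebraMap F (RatFunc F)) i n)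

/-- The residues are surjective. -/
def RatSurjective : Prop :=
  ∀ {F : Type} [Field F] (π : F[X]) [Fact (Irreducible π)] (i n : ℤ),
    Function.Surjective (T.res π i n)

/-- There are transfers for finite extensions. -/
def Transfers : Prop :=
  ∀ {F E : Type} [Field F] [Field E] [Algebra F E] [FiniteDimensional F E] (i n : ℤ),
    ∃ N : T.H E i n →+ T.H F i n,
      ∀ x, N (T.map (algebraMap F E) i n x) = Module.finrank F E • x

/-- There is no torsion in degrees `i ≤ 0`. -/
def NoTorsion : Prop :=
  ∀ {F : Type} [Field F] (i n : ℤ), i ≤ 0 → ∀ m : ℕ, m ≠ 0 → ∀ x : T.H F i n,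
    m • x = 0 → x = 0

/-- The formal properties of the motivic cohomology `H^i(F, ℤ(n))` of fields that are used:
continuity, the exact sequence
`0 → H^i(F, n) → H^i(F(t), n) → ⨁_π H^(i-1)(F[X]/(π), n-1) → 0`, transfers, no torsion in degrees
`i ≤ 0`, and the vanishing for the prime fields. -/
structure IsMotivic : Prop where
  defined : Defined T
  dies : Dies T
  injective : RatInjective T
  exact : RatExact T
  surjective : RatSurjective T
  transfer : Transfers T
  torsionFree : NoTorsion T
  rat : ∀ i n : ℤ, i ≤ 0 → 0 < n → ∀ x : T.H ℚ i n, x = 0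
  zmod : ∀ (p : ℕ) [Fact p.Prime] (i n : ℤ), i ≤ 0 → 0 < n → ∀ x : T.H (ZMod p) i n, x = 0

/-- `H^i(F, n) = 0`. -/
def Zero (F : Type) [Field F] (i n : ℤ) : Prop := ∀ x : T.H F i n, x = 0

/-- The field `k(t_0, t_1, t_2, ...)`. -/
abbrev Rat (k : Type) [Field k] : Type := FractionRing (MvPolynomial ℕ k)

end Pool.Agent.R388.BS
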