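import Pool.Agent.R388.BS.Main
set_option autoImplicit false

/-!
# One field and one degree
-/

namespace Pool.Agent.R388.BS

open Polynomial IntermediateField

variable {T : FieldCohomology}

/-- `ℚ(t_0, t_1, ...)` embeds in `ℂ` -/
theorem exists_ratHom_complex : Nonempty (Rat ℚ →+* ℂ) := by
  obtain ⟨s, hs⟩ := exists_isTranscendenceBasis ℚ ℂ
  have h1 : Cardinal.mk ℂ = Cardinal.mk s :=
    IsAlgClosed.cardinal_eq_cardinal_transcendence_basis_of_aleph0_lt' _ hs
      (Cardinal.mk_le_aleph0) (by rw [Cardinal.mk_complex]; exact Cardinal.aleph0_lt_continuum)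
  have h2 : Infinite s := by
    rw [Cardinal.infinite_iff, ← h1, Cardinal.mk_complex]
    exact Cardinal.aleph0_le_continuum
  let f : ℕ ↪ s := Infinite.natEmbedding s
  have hv : AlgebraicIndependent ℚ (fun n => ((f n : s) : ℂ)) := hs.1.comp f f.injective
  exact ⟨IsFractionRing.lift (A := MvPolynomial ℕ ℚ) (K := Rat ℚ)
    (algebraicIndependent_iff_injective_aeval.2 hv)⟩

/-- For extensions of `k`: vanishing for `k(t_0, t_1, ...)`, for an algebraically closed field
`Ω` containing `k(t_0, t_1, ...)`, and for all extensions. -/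
theorem tfae_base (hT : IsMotivic T) {k : Type} [Field k] {i n : ℤ} (hi : i ≤ 0)
    (hk : Zero T k i n) {Ω : Type} [Field Ω] [IsAlgClosed Ω] (g : Rat k →+* Ω) :
    [Zero T (Rat k) i n, Zero T Ω (i - 1) (n - 1),
      ∀ (F : Type) [Field F] [Algebra k F], Zero T F (i - 1) (n - 1)].TFAE := by
  tfae_have 1 ↔ 3 := unbounded hT hi hk
  tfae_have 3 → 2 := fun h => by
    let _ := (g.comp (algebraMap k (Rat k))).toAlgebra
    exact h Ω
  tfae_have 2 → 3 := fun h F _ _ => zero_of_closed hT (by omega) g h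
  tfae_finish

/-- From one algebraically closed field in degree `i` to all extensions in all degrees `≤ i`. -/
theorem of_closed (hT : IsMotivic T) {k : Type} [Field k] {i n : ℤ} (hi : i ≤ 0)
    {Ω : Type} [Field Ω] [IsAlgClosed Ω] (g : Rat k →+* Ω) (h : Zero T Ω i n) (j : ℕ)
    (F : Type) [Field F] [Algebra k F] : Zero T F (i - j) (n - j) :=
  zero_shift_all (k := k) hT hi (fun _ _ _ => zero_of_closed (k := k) hT hi g h) j F

/-- From `k(t_0, t_1, ...)` in degree `0` to all extensions in all negative degrees. -/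
theorem of_rat (hT : IsMotivic T) {k : Type} [Field k] (hk : ∀ n : ℤ, 1 < n → Zero T k 0 n)
    (h : ∀ n : ℤ, 1 < n → Zero T (Rat k) 0 n) (F : Type) [Field F] [Algebra k F] {i n : ℤ}
    (hi : i < 0) (hn : 1 ≤ n) : Zero T F i n := by
  have h1 : 1 < n - i := by omega
  have h2 := (unbounded hT le_rfl (hk _ h1)).1 (h _ h1)
  obtain ⟨j, hj⟩ := Int.eq_ofNat_of_zero_le (show 0 ≤ -1 - i by omega)
  have h3 := zero_shift_all hT (i := 0 - 1) (by omega) h2 j F
  have e1 : (0 : ℤ) - 1 - j = i := by omega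
  have e2 : n - i - 1 - j = n := by omega
  rwa [e1, e2] at h3

end Pool.Agent.R388.BS
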