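import Pool.Agent.R388.BS.Defs
set_option autoImplicit false

/-!
# Injectivity of the restriction maps in degrees `i ≤ 0`
-/

namespace Pool.Agent.R388.BS

open Polynomial IntermediateField

variable {T : FieldCohomology}

theorem map_equiv_injective {F E : Type} [Field F] [Field E] (e : F ≃+* E) (i n : ℤ) :
    Function.Injective (T.map (e : F →+* E) i n) := by
  intro x y h
  have h1 := congrArg (T.map (e.symm : E →+* F) i n) h
  rw [← T.map_comp, ← T.map_comp] at h1
  have h2 : ((e.symm : E →+* F).comp (e : F →+* E)) = RingHom.id F := by
    ext a; simp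
  rwa [h2, T.map_id, T.map_id] at h1

theorem comp_injective {F E L : Type} [Field F] [Field E] [Field L] {g : E →+* L} {f : F →+* E}
    {i n : ℤ} (hg : Function.Injective (T.map g i n)) (hf : Function.Injective (T.map f i n)) :
    Function.Injective (T.map (g.comp f) i n) := by
  intro x y h
  rw [T.map_comp, T.map_comp] at h
  exact hf (hg h)

theorem of_comp_injective {F E L : Type} [Field F] [Field E] [Field L] {g : E →+* L} {f : F →+* E}
    {i n : ℤ} (h : Function.Injective (T.map (g.comp f) i n)) :
    Function.Injective (T.map f i n) := by
  intro x y hxy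
  apply h
  rw [T.map_comp, T.map_comp, hxy]

theorem Zero.of_injective {F E : Type} [Field F] [Field E] {f : F →+* E} {i n : ℤ}
    (hf : Function.Injective (T.map f i n)) (h : Zero T E i n) : Zero T F i n := by
  intro x
  apply hf
  rw [map_zero]
  exact h _

theorem Zero.of_equiv {F E : Type} [Field F] [Field E] (e : F ≃+* E) {i n : ℤ}
    (h : Zero T E i n) : Zero T F i n := h.of_injective (map_equiv_injective e i n)

variable (hT : IsMotivic T) {i n : ℤ} (hi : i ≤ 0)

include hT hi

theorem simple_injective {F E : Type} [Field F] [Field E] [Algebra F E] (x : E) :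
    Function.Injective (T.map (algebraMap F F⟮x⟯) i n) := by
  by_cases hx : Transcendental F x
  · have e := RatFunc.algEquivOfTranscendental (K := F) x hx
    have h1 : algebraMap F F⟮x⟯ = ((e : RatFunc F ≃+* F⟮x⟯) : RatFunc F →+* F⟮x⟯).comp
        (algebraMap F (RatFunc F)) := RingHom.ext fun a => (e.commutes a).symm
    rw [h1]
    exact comp_injective (map_equiv_injective _ i n) (hT.injective i n)
  · have hx' : IsIntegral F x := by
      rw [← isAlgebraic_iff_isIntegral]
      unfold Transcendental at hx
      exact not_not.1 hx
    have := adjoin.finiteDimensional hx'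
    obtain ⟨N, hN⟩ := hT.transfer (F := F) (E := F⟮x⟯) i n
    rw [injective_iff_map_eq_zero]
    intro y hy
    refine hT.torsionFree i n hi _ (Module.finrank_pos (R := F) (M := F⟮x⟯)).ne' y ?_
    rw [← hN, hy, map_zero]

theorem adjoin_injective {F E : Type} [Field F] [Field E] [Algebra F E] (S : Finset E) :
    Function.Injective (T.map (algebraMap F (adjoin F (S : Set E))) i n) := by
  refine induction_on_adjoin_finset S
    (fun K => Function.Injective (T.map (algebraMap F K) i n)) ?_ ?_
  · have h1 : algebraMap F (⊥ : IntermediateField F E) =
        (((botEquiv F E).symm : F ≃+* (⊥ : IntermediateField F E)) : F →+* _) := by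
      ext a
      simp
    rw [h1]
    exact map_equiv_injective _ i n
  · intro K x _ hK
    exact comp_injective (T := T) (g := algebraMap K K⟮x⟯) (f := algebraMap F K)
      (simple_injective hT hi x) hK

/-- In degrees `i ≤ 0` the restriction maps for all field extensions are injective. -/
theorem map_injective {F E : Type} [Field F] [Field E] (f : F →+* E) :
    Function.Injective (T.map f i n) := by
  let _ := f.toAlgebra
  rw [injective_iff_map_eq_zero]
  intro x hx
  obtain ⟨S, hS⟩ := hT.dies (F := F) (E := E) i n x hx
  exact (injective_iff_map_eq_zero _).1 (adjoin_injective hT hi S) x hS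

theorem Zero.of_hom {F E : Type} [Field F] [Field E] (f : F →+* E)
    (h : Zero T E i n) : Zero T F i n := h.of_injective (map_injective hT hi f)

end Pool.Agent.R388.BS
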