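import Pool.Agent.R388.BS.Ratl
set_option autoImplicit false

/-!
# Reduction to rational function fields
-/

namespace Pool.Agent.R388.BS

open Polynomial IntermediateField

variable {T : FieldCohomology}

theorem zero_residue (hT : IsMotivic T) {F : Type} [Field F] {i n : ℤ}
    (h : Zero T (RatFunc F) i n) (π : F[X]) [Fact (Irreducible π)] :
    Zero T (AdjoinRoot π) (i - 1) (n - 1) := by
  intro x
  obtain ⟨y, rfl⟩ := hT.surjective π i n x
  rw [h y, map_zero]

theorem zero_ratFunc (hT : IsMotivic T) {F : Type} [Field F] {i n : ℤ}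
    (h : Zero T F i n)
    (h' : ∀ (π : F[X]) [Fact (Irreducible π)], Zero T (AdjoinRoot π) (i - 1) (n - 1)) :
    Zero T (RatFunc F) i n := by
  intro x
  obtain ⟨y, rfl⟩ := (hT.exact i n x).1 fun π _ => h' π _
  rw [h y, map_zero]

/-- If all classes over finitely generated extensions vanish, all classes vanish. -/
theorem zero_of_fg (hT : IsMotivic T) {F E : Type} [Field F] [Field E] [Algebra F E] {i n : ℤ}
    (h : ∀ S : Finset E, Zero T (adjoin F (S : Set E)) i n) : Zero T E i n := by
  intro x
  obtain ⟨S, y, rfl⟩ := hT.defined (F := F) i n x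
  rw [h S y, map_zero]

section ratfunc

/-- `K(t) → L(t)` for `K → L` -/
theorem ratFunc_hom {K L : Type} [Field K] [Field L] (f : K →+* L) :
    Nonempty (RatFunc K →+* RatFunc L) :=
  ⟨RatFunc.mapRingHom (Polynomial.mapRingHom f) (nonZeroDivisors_le_comap_nonZeroDivisors_of_injective
    _ (Polynomial.map_injective f f.injective))⟩

variable {k : Type} [Field k]

/-- A finitely generated field of transcendence degree `r` is, up to a power of the Frobenius
map, generated by one element over `k(t_0, ..., t_(r-1))`. -/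
theorem exists_model {F : Type} [Field F] [Algebra k F] [Algebra.EssFiniteType k F] {r : ℕ}
    (hr : Algebra.trdeg k F ≤ r) :
    ∃ m ≤ r, ∃ (K : Type) (_ : Field K) (_ : K →+* Kf k m) (π : K[X]) (_ : Fact (Irreducible π)),
      Nonempty (F →+* AdjoinRoot π) := by
  obtain ⟨s, hs⟩ := exists_finset_isTranscendenceBasis k F
  have hm : Nat.card s ≤ r := by
    have h1 := hs.cardinalMk_eq_trdeg
    rw [← h1] at hr
    have h2 : Cardinal.mk s = (Nat.card s : ℕ) := by simp
    rw [h2] at hr
    exact_mod_cast hr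
  obtain ⟨e⟩ := exists_equiv_Kf k hs.1
  set K : IntermediateField k F := adjoin k (Set.range ((↑) : s → F)) with hK
  have halg : Algebra.IsAlgebraic K F := hs.isAlgebraic_field
  have hess : Algebra.EssFiniteType K F := Algebra.EssFiniteType.of_comp k K F
  have hfin : FiniteDimensional K F := by
    obtain ⟨S, hS⟩ := IntermediateField.fg_top (F := K) (E := F)
    have h1 : FiniteDimensional K (adjoin K (S : Set F)) :=
      finiteDimensional_adjoin fun x _ => (halg.isAlgebraic x).isIntegral
    rw [hS] at h1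
    exact Module.Finite.equiv (IntermediateField.topEquiv (F := K) (E := F)).toLinearEquiv
  let Es := separableClosure K F
  obtain ⟨α, hα⟩ := Field.exists_primitive_element K Es
  have hαi : IsIntegral K α := Algebra.IsIntegral.isIntegral α
  have e1 : Es ≃+* AdjoinRoot (minpoly K α) := by
    have e2 : K⟮α⟯ ≃ₐ[K] Es := (equivOfEq hα).trans topEquiv
    exact (e2.symm.trans (adjoinRootEquivAdjoin K hαi).symm).toRingEquiv
  let q := ringExpChar Es
  let φ : F →+* Es := IsPurelyInseparable.iterateFrobenius Es F q le_rfl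
  exact ⟨_, hm, K, inferInstance, e.toRingEquiv.toRingHom, minpoly K α,
    ⟨minpoly.irreducible hαi⟩, ⟨e1.toRingHom.comp φ⟩⟩

theorem zero_ratFunc_Kf (hT : IsMotivic T) {i n : ℤ} (hi : i ≤ 0) {m r : ℕ} (hm : m ≤ r)
    (h : Zero T (Kf k (r + 1)) i n) : Zero T (RatFunc (Kf k m)) i n :=
  h.of_hom hT hi ((inclHom k (Nat.succ_le_succ hm)).comp (ratHom k m))

/-- the vanishing in degree `i` for `k(t_0, ..., t_r)` implies the vanishing in degree `i - 1` for
all finitely generated fields of transcendence degree `≤ r` over `k` -/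
theorem zero_of_Kf_fg (hT : IsMotivic T) {i n : ℤ} (hi : i ≤ 0) {r : ℕ}
    (h : Zero T (Kf k (r + 1)) i n) {F : Type} [Field F] [Algebra k F]
    [Algebra.EssFiniteType k F] (hr : Algebra.trdeg k F ≤ r) : Zero T F (i - 1) (n - 1) := by
  obtain ⟨m, hm, K, _, f, π, _, ⟨φ⟩⟩ := exists_model hr
  obtain ⟨g⟩ := ratFunc_hom f
  have h1 : Zero T (RatFunc K) i n := (zero_ratFunc_Kf hT hi hm h).of_hom hT hi g
  exact (zero_residue hT h1 π).of_hom hT (by omega) φ

theorem zero_of_Kf (hT : IsMotivic T) {i n : ℤ} (hi : i ≤ 0) {r : ℕ}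
    (h : Zero T (Kf k (r + 1)) i n) {F : Type} [Field F] [Algebra k F]
    (hr : Algebra.trdeg k F ≤ r) : Zero T F (i - 1) (n - 1) := by
  refine zero_of_fg (F := k) hT fun S => ?_
  have h1 : Algebra.EssFiniteType k (adjoin k (S : Set F)) :=
    essFiniteType_iff.2 (fg_adjoin_of_finite S.finite_toSet)
  refine zero_of_Kf_fg hT hi h (le_trans ?_ hr)
  exact trdeg_le_of_injective (adjoin k (S : Set F)).val
    (adjoin k (S : Set F)).val.injective

/-- the converse -/
theorem zero_Kf (hT : IsMotivic T) {i n : ℤ} (hi : i ≤ 0) (hk : Zero T k i n) {r : ℕ}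
    (h : ∀ (F : Type) [Field F] [Algebra k F], Algebra.trdeg k F ≤ r → Zero T F (i - 1) (n - 1)) :
    ∀ m ≤ r + 1, Zero T (Kf k m) i n := by
  intro m
  induction m with
  | zero =>
    intro _
    have h0 : Kf k 0 = ⊥ := by
      unfold Kf
      rw [show Set.Iio 0 = (∅ : Set ℕ) by ext; simp, Set.image_empty, adjoin_empty]
    refine hk.of_hom hT hi (F := Kf k 0) ?_
    exact ((equivOfEq h0).trans (botEquiv k (Rat k))).toRingEquiv.toRingHom
  | succ m ih =>
    intro hm
    refine Zero.of_hom hT hi (succHom k m) (zero_ratFunc hT (ih (by omega)) fun π _ => ?_)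
    refine h (AdjoinRoot π) ?_
    have hfin : FiniteDimensional (Kf k m) (AdjoinRoot π) :=
      (AdjoinRoot.powerBasis (Fact.out : Irreducible π).ne_zero).finite
    have halg : Algebra.IsAlgebraic (Kf k m) (AdjoinRoot π) := inferInstance
    rw [← trdeg_add_eq k (Kf k m) (A := AdjoinRoot π), trdeg_eq_zero_iff.2 halg, add_zero]
    refine (trdeg_Kf k m).trans ?_
    exact_mod_cast (by omega : m ≤ r)

/-- **Bounded transcendence degree.** -/
theorem bounded (hT : IsMotivic T) {i n : ℤ} (hi : i ≤ 0) (hk : Zero T k i n) (r : ℕ) :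
    Zero T (FractionRing (MvPolynomial (Fin (r + 1)) k)) i n ↔
      ∀ (F : Type) [Field F] [Algebra k F], Algebra.trdeg k F ≤ r → Zero T F (i - 1) (n - 1) := by
  obtain ⟨e⟩ := exists_equiv_fraction k (r + 1)
  constructor
  · intro h F _ _ hF
    exact zero_of_Kf hT hi (h.of_equiv e.symm.toRingEquiv) hF
  · intro h
    exact (zero_Kf hT hi hk h _ le_rfl).of_equiv e.toRingEquiv

/-- **All fields.** -/
theorem unbounded (hT : IsMotivic T) {i n : ℤ} (hi : i ≤ 0) (hk : Zero T k i n) :
    Zero T (Rat k) i n ↔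
      ∀ (F : Type) [Field F] [Algebra k F], Zero T F (i - 1) (n - 1) := by
  constructor
  · intro h F _ _
    refine zero_of_fg (F := k) hT fun S => ?_
    have h1 : Algebra.EssFiniteType k (adjoin k (S : Set F)) :=
      essFiniteType_iff.2 (fg_adjoin_of_finite S.finite_toSet)
    obtain ⟨r, hr⟩ := Cardinal.lt_aleph0.1 (trdeg_lt_aleph0 k (adjoin k (S : Set F)))
    exact zero_of_Kf_fg hT hi (h.of_hom hT hi (algebraMap (Kf k (r + 1)) (Rat k))) hr.le
  · intro h
    refine zero_of_fg (F := k) hT fun S => ?_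
    obtain ⟨m, hm⟩ := exists_mem_Kf k S
    have h1 : adjoin k (S : Set (Rat k)) ≤ Kf k m := adjoin_le_iff.2 hm
    exact (zero_Kf hT hi hk (r := m) (fun F _ _ _ => h F) m (by omega)).of_hom hT hi
      (inclusion h1).toRingHom

/-- A finitely generated extension of `k` embeds in an algebraically closed field containing
`k(t_0, t_1, ...)`. -/
theorem exists_hom {Ω : Type} [Field Ω] [IsAlgClosed Ω] (g : Rat k →+* Ω) {F : Type} [Field F]
    [Algebra k F] [Algebra.EssFiniteType k F] : Nonempty (F →+* Ω) := by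
  obtain ⟨s, hs⟩ := exists_finset_isTranscendenceBasis k F
  obtain ⟨e⟩ := exists_equiv_Kf k hs.1
  have halg : Algebra.IsAlgebraic (adjoin k (Set.range ((↑) : s → F))) F := hs.isAlgebraic_field
  let ψ : adjoin k (Set.range ((↑) : s → F)) →+* Ω :=
    (g.comp (algebraMap (Kf k (Nat.card s)) (Rat k))).comp e.toRingEquiv.toRingHom
  let _ := ψ.toAlgebra
  exact ⟨(IsAlgClosed.lift (R := adjoin k (Set.range ((↑) : s → F))) (S := F) (M := Ω)).toRingHom⟩

theorem zero_of_closed (hT : IsMotivic T) {i n : ℤ} (hi : i ≤ 0) {Ω : Type} [Field Ω]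
    [IsAlgClosed Ω] (g : Rat k →+* Ω) (h : Zero T Ω i n) {F : Type} [Field F] [Algebra k F] :
    Zero T F i n := by
  refine zero_of_fg (F := k) hT fun S => ?_
  have h1 : Algebra.EssFiniteType k (adjoin k (S : Set F)) :=
    essFiniteType_iff.2 (fg_adjoin_of_finite S.finite_toSet)
  obtain ⟨φ⟩ := exists_hom (k := k) g (F := adjoin k (S : Set F))
  exact h.of_hom hT hi φ

end ratfunc

/-- `H^i(F(t), n) = 0` implies `H^(i-1)(F, n-1) = 0`. -/
theorem zero_shift (hT : IsMotivic T) {F : Type} [Field F] {i n : ℤ} (hi : i ≤ 0)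
    (h : Zero T (RatFunc F) i n) : Zero T F (i - 1) (n - 1) := by
  have h1 : Fact (Irreducible (X : F[X])) := ⟨irreducible_X⟩
  exact (zero_residue hT h X).of_hom hT (by omega) (algebraMap F (AdjoinRoot (X : F[X])))

/-- The vanishing for all extensions of `k` in degree `i` and weight `n` implies that in degree
`i - j` and weight `n - j`. -/
theorem zero_shift_all (hT : IsMotivic T) {k : Type} [Field k] {i n : ℤ} (hi : i ≤ 0)
    (h : ∀ (F : Type) [Field F] [Algebra k F], Zero T F i n) (j : ℕ) :
    ∀ (F : Type) [Field F] [Algebra k F], Zero T F (i - j) (n - j) := by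
  induction j with
  | zero => simpa using h
  | succ j ih =>
    intro F _ _
    have h1 := zero_shift hT (F := F) (i := i - j) (n := n - j) (by omega) (ih (RatFunc F))
    have e1 : i - (j + 1 : ℕ) = i - j - 1 := by push_cast; ring
    have e2 : n - (j + 1 : ℕ) = n - j - 1 := by push_cast; ring
    rw [e1, e2]
    exact h1

end Pool.Agent.R388.BS
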