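import Pool.Agent.R388.BS.Inj
set_option autoImplicit false

/-!
# Purely transcendental extensions
-/

namespace Pool.Agent.R388.BS

open Polynomial IntermediateField

section fields

variable (k : Type) [Field k]

/-- the variables -/
noncomputable def vr (j : ℕ) : Rat k := algebraMap (MvPolynomial ℕ k) (Rat k) (MvPolynomial.X j)

theorem vr_indep : AlgebraicIndependent k (vr k) := by
  have h1 : AlgebraicIndependent k (MvPolynomial.X : ℕ → MvPolynomial ℕ k) :=
    MvPolynomial.algebraicIndependent_X ℕ k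
  exact h1.map' (f := IsScalarTower.toAlgHom k (MvPolynomial ℕ k) (Rat k))
    (IsFractionRing.injective (MvPolynomial ℕ k) (Rat k))

/-- the field `k(t_0, ..., t_(m-1))` inside `k(t_0, t_1, ...)` -/
noncomputable abbrev Kf (m : ℕ) : IntermediateField k (Rat k) := adjoin k (vr k '' Set.Iio m)

open scoped algebraAdjoinAdjoin in
theorem vr_transcendental (m : ℕ) : Transcendental (Kf k m) (vr k m) := by
  have h := (vr_indep k).transcendental_adjoin (s := Set.Iio m) (i := m) (by simp)
  intro h1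
  exact h ((IsFractionRing.isAlgebraic_iff (Algebra.adjoin k (vr k '' Set.Iio m)) (Kf k m)
    (Rat k)).2 h1)

/-- `k(t_0, ..., t_(m-1))(t) = k(t_0, ..., t_m)` -/
noncomputable def ratEquiv (m : ℕ) : RatFunc (Kf k m) ≃ₐ[Kf k m] (Kf k m)⟮vr k m⟯ :=
  RatFunc.algEquivOfTranscendental _ (vr_transcendental k m)

theorem Kf_succ (m : ℕ) : ((Kf k m)⟮vr k m⟯).restrictScalars k = Kf k (m + 1) := by
  rw [adjoin_adjoin_left]
  congr 1
  rw [← Set.image_singleton, ← Set.image_union]
  congr 1
  ext j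
  simp only [Set.mem_union, Set.mem_Iio, Set.mem_singleton_iff]
  omega

/-- `k(t_0, ..., t_(m-1))(t) → k(t_0, ..., t_m)` -/
noncomputable def ratHom (m : ℕ) : RatFunc (Kf k m) →+* Kf k (m + 1) :=
  (Subring.inclusion (show ((Kf k m)⟮vr k m⟯).toSubalgebra.toSubring ≤
    (Kf k (m + 1)).toSubalgebra.toSubring from (Kf_succ k m).le)).comp
    (ratEquiv k m).toRingEquiv.toRingHom

/-- `k(t_0, ..., t_m) → k(t_0, ..., t_(m-1))(t)` -/
noncomputable def succHom (m : ℕ) : Kf k (m + 1) →+* RatFunc (Kf k m) :=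
  (ratEquiv k m).symm.toRingEquiv.toRingHom.comp
    (Subring.inclusion (show (Kf k (m + 1)).toSubalgebra.toSubring ≤
      ((Kf k m)⟮vr k m⟯).toSubalgebra.toSubring from (Kf_succ k m).ge))

/-- `k(t_0, ..., t_(m-1)) → k(t_0, ..., t_(n-1))` for `m ≤ n` -/
noncomputable def inclHom {m n : ℕ} (h : m ≤ n) : Kf k m →+* Kf k n :=
  (inclusion (adjoin.mono k _ _ (Set.image_mono (Set.Iio_subset_Iio h))) :
    Kf k m →ₐ[k] Kf k n).toRingHom

theorem mem_adjoin_range (a : Rat k) : a ∈ adjoin k (Set.range (vr k)) := by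
  have h1 : ∀ p : MvPolynomial ℕ k,
      algebraMap (MvPolynomial ℕ k) (Rat k) p ∈ adjoin k (Set.range (vr k)) := by
    intro p
    induction p using MvPolynomial.induction_on with
    | C c => exact IntermediateField.algebraMap_mem (adjoin k (Set.range (vr k))) c
    | add p q hp hq =>
      rw [map_add]
      exact add_mem hp hq
    | mul_X p j hp =>
      rw [map_mul]
      exact mul_mem hp (subset_adjoin k _ ⟨j, rfl⟩)
  obtain ⟨x, y, -, rfl⟩ := IsFractionRing.div_surjective (A := MvPolynomial ℕ k) a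
  exact div_mem (h1 x) (h1 y)

theorem exists_mem_Kf (S : Finset (Rat k)) : ∃ m, (S : Set (Rat k)) ⊆ Kf k m := by
  classical
  have h1 : ∀ a : Rat k, ∃ m, a ∈ Kf k m := by
    intro a
    obtain ⟨U, hU, ha⟩ := exists_finset_of_mem_adjoin (mem_adjoin_range k a)
    have h2 : ∀ b ∈ U, ∃ j, vr k j = b := fun b hb => hU hb
    choose! j hj using h2
    refine ⟨(U.image j).sup id + 1, adjoin.mono k _ _ ?_ ha⟩
    intro b hb
    refine ⟨j b, ?_, hj b hb⟩
    have : j b ≤ (U.image j).sup id := Finset.le_sup (f := id) (Finset.mem_image_of_mem j hb)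
    exact Nat.lt_succ_of_le this
  choose m hm using h1
  refine ⟨S.sup m, fun a ha => ?_⟩
  exact adjoin.mono k _ _ (Set.image_mono (Set.Iio_subset_Iio (Finset.le_sup ha))) (hm a)

/-- the field generated by finitely many algebraically independent elements -/
theorem exists_equiv_Kf {L : Type} [Field L] [Algebra k L] {ι : Type} [Finite ι] {v : ι → L}
    (hv : AlgebraicIndependent k v) :
    Nonempty (adjoin k (Set.range v) ≃ₐ[k] Kf k (Nat.card ι)) := by
  classical
  let e := Finite.equivFin ι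
  let y : ι → Rat k := fun i => vr k (e i)
  have hy : AlgebraicIndependent k y :=
    (vr_indep k).comp (fun i => (e i : ℕ)) (Fin.val_injective.comp e.injective)
  have hr : Set.range y = vr k '' Set.Iio (Nat.card ι) := by
    ext a
    constructor
    · rintro ⟨i, rfl⟩
      exact ⟨e i, (e i).isLt, rfl⟩
    · rintro ⟨j, hj, rfl⟩
      exact ⟨e.symm ⟨j, hj⟩, by simp [y]⟩
  have e1 := hv.aevalEquivField.symm.trans hy.aevalEquivField
  rw [hr] at e1
  exact ⟨e1⟩

/-- `k(t_0, ..., t_(m-1))` as a field of fractions -/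
theorem exists_equiv_fraction (m : ℕ) :
    Nonempty (FractionRing (MvPolynomial (Fin m) k) ≃ₐ[k] Kf k m) := by
  have hy : AlgebraicIndependent k (fun i : Fin m => vr k i) :=
    (vr_indep k).comp (fun i : Fin m => (i : ℕ)) Fin.val_injective
  have hr : Set.range (fun i : Fin m => vr k i) = vr k '' Set.Iio m := by
    ext a
    constructor
    · rintro ⟨i, rfl⟩
      exact ⟨i, i.isLt, rfl⟩
    · rintro ⟨j, hj, rfl⟩
      exact ⟨⟨j, hj⟩, rfl⟩
  have e1 := hy.aevalEquivField
  rw [hr] at e1
  exact ⟨e1⟩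

theorem trdeg_Kf (m : ℕ) : Algebra.trdeg k (Kf k m) ≤ m := by
  obtain ⟨e⟩ := exists_equiv_fraction k m
  have h0 : Algebra.IsAlgebraic (MvPolynomial (Fin m) k)
      (FractionRing (MvPolynomial (Fin m) k)) :=
    IsLocalization.isAlgebraic _ (nonZeroDivisors (MvPolynomial (Fin m) k))
  have h1 := trdeg_add_eq k (MvPolynomial (Fin m) k)
    (A := FractionRing (MvPolynomial (Fin m) k))
  rw [trdeg_eq_zero_iff.2 h0, add_zero, MvPolynomial.trdeg_of_isDomain] at h1
  rw [← e.trdeg_eq, ← h1]
  simp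

end fields

end Pool.Agent.R388.BS
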